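import Pool.Agent.MP_86c931_ag.H56.RowsD

/-! The six charts are the charts of a blow-up. -/

namespace Pool.Agent.MP_86c931_ag.H72

open Pool.Agent.MP_86c931_ag.H56 MvPolynomial

lemma dot_mem_Inv {v w : Fin 3 → F} (hv : IsVec v) (hw : IsVec w) : dot v w ∈ H56.Inv := by
  obtain ⟨a1, a2, a3, a4, a5, a6⟩ := hv
  obtain ⟨b1, b2, b3, b4, b5, b6⟩ := hw
  rw [mem_Inv, dot]
  simp only [map_add, Derivation.leibniz, smul_eq_mul, a1, a2, a3, a4, a5, a6, b1, b2, b3, b4, b5,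
    b6]
  constructor <;> ring

lemma isVec_cross {v w : Fin 3 → F} (hv : IsVec v) (hw : IsVec w) : IsVec (cross v w) := by
  obtain ⟨a1, a2, a3, a4, a5, a6⟩ := hv
  obtain ⟨b1, b2, b3, b4, b5, b6⟩ := hw
  have e0 : cross v w 0 = v 0 * w 1 - v 1 * w 0 := rfl
  have e1 : cross v w 1 = v 2 * w 0 - v 0 * w 2 := rfl
  have e2 : cross v w 2 = v 1 * w 2 - v 2 * w 1 := rfl
  rw [IsVec, e0, e1, e2]
  simp only [map_sub, Derivation.leibniz, smul_eq_mul, a1, a2, a3, a4, a5, a6, b1, b2, b3, b4, b5,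
    b6]
  refine ⟨?_, ?_, ?_, ?_, ?_, ?_⟩ <;> ring

lemma dot_mem (A : Subalgebra ℂ F) {v w : Fin 3 → F} (hv : ∀ α, v α ∈ A) (hw : ∀ α, w α ∈ A) :
    dot v w ∈ A :=
  A.add_mem (A.add_mem (A.mul_mem (hv 0) (hw 2)) (A.mul_mem (hv 1) (hw 1)))
    (A.mul_mem (hv 2) (hw 0))

lemma cross_mem (A : Subalgebra ℂ F) {v w : Fin 3 → F} (hv : ∀ α, v α ∈ A) (hw : ∀ α, w α ∈ A)
    (α : Fin 3) : cross v w α ∈ A := by
  fin_cases α
  exacts [A.sub_mem (A.mul_mem (hv 0) (hw 1)) (A.mul_mem (hv 1) (hw 0)),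
    A.sub_mem (A.mul_mem (hv 2) (hw 0)) (A.mul_mem (hv 0) (hw 2)),
    A.sub_mem (A.mul_mem (hv 1) (hw 2)) (A.mul_mem (hv 2) (hw 1))]

/-- a column of variables -/
noncomputable def zv (k : K6) : Fin 3 → F := fun α => zF α k

lemma zv_mem (k : K6) (α : Fin 3) : zv k α ∈ PI ∅ := zF_mem_PI _ _ _

/-- the class of a polynomial invariant -/
noncomputable def cls (p : F) (h : p ∈ PIb ∅) : R0 := ⟨mkO ⟨p, PIb_le _ h⟩, ⟨p, PIb_le _ h⟩, h, rfl⟩

noncomputable def gR (k : K6) : R0 :=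
  cls (dot Hv (zv k)) ⟨dot_mem _ (Hv_mem _) (zv_mem k), dot_mem_Inv isVec_Hv (isVec_z k)⟩

noncomputable def hR (l m : K6) : R0 :=
  cls (dot Hv (cross (zv l) (zv m))) ⟨dot_mem _ (Hv_mem _) (cross_mem _ (zv_mem l) (zv_mem m)),
    dot_mem_Inv isVec_Hv (isVec_cross (isVec_z l) (isVec_z m))⟩

noncomputable def AR (l m : K6) : R0 :=
  cls (dot (zv l) (zv m)) ⟨dot_mem _ (zv_mem l) (zv_mem m), dot_mem_Inv (isVec_z l) (isVec_z m)⟩

/-- the class of a coordinate -/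
noncomputable def co (k : K6) (α : Fin 3) (l : K6) : O := mkO (ztb k (α, l))

/-- the ideal of the two Hamiltonians in the localization -/
noncomputable def JI : Ideal Pa where
  carrier := {p | (p : F) ∈ JF}
  add_mem' := fun ha hb => JF.add_mem ha hb
  zero_mem' := JF.zero_mem
  smul_mem' := fun c _ hp => JF_mul c.2 hp

noncomputable def πQ : Pa →ₐ[ℂ] Pa ⧸ JI := Ideal.Quotient.mkₐ ℂ JI

lemma πQ_eq_zero {p : Pa} : πQ p = 0 ↔ (p : F) ∈ JF := Ideal.Quotient.eq_zero_iff_mem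

noncomputable def jQ : O →ₐ[ℂ] Pa ⧸ JI :=
  Ideal.Quotient.liftₐ J2 (πQ.comp (Subalgebra.inclusion inf_le_left)) fun _ h => πQ_eq_zero.2 h

lemma jQ_mkO (p : Pab) (q : Pa) (h : (p : F) = q) : jQ (mkO p) = πQ q :=
  congrArg πQ (Subtype.ext h)

lemma jQ_inj : Function.Injective jQ := (injective_iff_map_eq_zero jQ).2 fun f hf => by
  obtain ⟨p, rfl⟩ := mkO_surj f
  rw [jQ_mkO p ⟨p, p.2.1⟩ rfl] at hf
  exact mkO_eq_zero.2 (πQ_eq_zero.1 hf)

noncomputable def za (α : Fin 3) (k : K6) : Pa := ⟨zF α k, zF_mem_PI _ α k⟩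

noncomputable def xi (k : K6) : Pa := ⟨(zF 0 k)⁻¹, inv_mem_PI (Finset.mem_univ k)⟩

noncomputable def ha (α : Fin 3) : Pa := ⟨Hv α, Hv_mem _ α⟩

lemma ha_0 : πQ (ha 0) = 0 := πQ_eq_zero.2 He_mem_JF

lemma ha_1 : πQ (ha 1) = 0 := πQ_eq_zero.2 (JF.neg_mem Hh_mem_JF)

lemma x_xi (k : K6) : πQ (za 0 k) * πQ (xi k) = 1 := by
  rw [← map_mul, ← map_one πQ]
  exact congrArg _ (Subtype.ext (mul_inv_cancel₀ (zF_ne_zero 0 k)))

lemma j_g (k : K6) : jQ (gR k) = πQ (ha 2) * πQ (za 0 k) := by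
  refine (jQ_mkO _ (dot ha fun α => za α k) rfl).trans ?_
  simp only [dot, map_add, map_mul, ha_0, ha_1, zero_mul, zero_add]

lemma j_h (l m : K6) : jQ (hR l m) =
    πQ (ha 2) * (πQ (za 0 l) * πQ (za 1 m) - πQ (za 1 l) * πQ (za 0 m)) := by
  refine (jQ_mkO _ (ha 0 * (za 1 l * za 2 m - za 2 l * za 1 m) +
    ha 1 * (za 2 l * za 0 m - za 0 l * za 2 m) + ha 2 * (za 0 l * za 1 m - za 1 l * za 0 m))
    rfl).trans ?_
  simp only [map_add, map_mul, map_sub, ha_0, ha_1, zero_mul, zero_add]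

lemma j_A (l m : K6) : jQ (AR l m) =
    πQ (za 0 l) * πQ (za 2 m) + πQ (za 1 l) * πQ (za 1 m) + πQ (za 2 l) * πQ (za 0 m) := by
  refine (jQ_mkO _ (dot (fun α => za α l) fun α => za α m) rfl).trans ?_
  simp only [dot, map_add, map_mul]

lemma j_a (k l : K6) : jQ (co k 0 l) = πQ (za 0 l) * πQ (xi k) :=
  (jQ_mkO _ (za 0 l * xi k) (div_eq_mul_inv _ _)).trans (map_mul _ _ _)

lemma j_b (k l : K6) :
    jQ (co k 1 l) = πQ (za 1 l) - πQ (za 1 k) * πQ (xi k) * πQ (za 0 l) := by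
  refine (jQ_mkO _ (za 1 l - za 1 k * xi k * za 0 l) ?_).trans ?_
  · rw [ztb_coe, zt_1, sl, div_eq_mul_inv]
    rfl
  · simp only [map_sub, map_mul]

lemma g_eq (k l : K6) : co k 0 l * gR k = gR l := jQ_inj (by
  rw [map_mul, j_a, j_g, j_g]
  linear_combination πQ (ha 2) * πQ (za 0 l) * x_xi k)

lemma h_eq (k l m : K6) : (co k 0 l * co k 1 m - co k 1 l * co k 0 m) * gR k = hR l m :=
  jQ_inj (by
    rw [map_mul, map_sub, map_mul, map_mul, j_a, j_a, j_b, j_b, j_g, j_h]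
    linear_combination
      πQ (ha 2) * (πQ (za 0 l) * πQ (za 1 m) - πQ (za 1 l) * πQ (za 0 m)) * x_xi k)

lemma h_eq' (k m : K6) : co k 1 m * gR k = hR k m := jQ_inj (by
  rw [map_mul, j_b, j_g, j_h]
  linear_combination -πQ (ha 2) * πQ (za 1 k) * πQ (za 0 m) * x_xi k)

lemma h_sq (l m : K6) :
    hR l m ^ 2 = gR l * (gR l * AR m m - 2 * gR m * AR l m) + gR m * (gR m * AR l l) :=
  Subtype.ext (jQ_inj (by
    change jQ ((hR l m : O) ^ 2) =
      jQ (gR l * (gR l * AR m m - 2 * gR m * AR l m) + gR m * (gR m * AR l l))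
    simp only [map_pow, map_add, map_sub, map_mul, map_ofNat, j_g, j_h, j_A]
    ring))

lemma A_eq (k l : K6) : (AR k l : O) = co k 2 l + co k 2 k * co k 0 l := by
  rw [co, co, co, ← map_mul, ← map_add]
  refine congrArg mkO (Subtype.ext ?_)
  change dot (zv k) (zv l) = zt k (2, l) + zt k (2, k) * zt k (0, l)
  rw [← dot_inv3 k]
  change zt k (0, k) * zt k (2, l) + zt k (1, k) * zt k (1, l) + zt k (2, k) * zt k (0, l) = _
  rw [zt_0_self, zt_1_self, one_mul, zero_mul, add_zero]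

lemma co_self (k : K6) : co k 0 k = 1 :=
  (congrArg mkO (Subtype.ext (zt_0_self k))).trans (map_one _)

/-- a point of the zero fibre -/
noncomputable def pt : S18 → ℂ := fun s =>
  (![1, if s.2 = (0, true) then 1 else if s.2 = (1, true) then -1 else 0,
    if s.2 = (0, false) then 1 else if s.2 = (1, false) then -1 else 0] : Fin 3 → ℂ) s.1

lemma pt_x (k : K6) : aeval pt (zP 0 k) = 1 := by simp [zP, pt]

lemma pt_He : aeval pt HeP = 0 := by
  rw [HeP, map_om]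
  simp [om, zP, pt, Fintype.sum_prod_type, Fin.sum_univ_three, K6.dual, K6.sgn]

lemma pt_Hh : aeval pt HhP = 0 := by
  rw [HhP, map_om]
  simp [om, zP, pt, Fintype.sum_prod_type, Fin.sum_univ_three, K6.dual, K6.sgn]

lemma pt_Hf : aeval pt HfP = 2 := by
  rw [HfP, map_om]
  simp [om, zP, pt, Fintype.sum_prod_type, Fin.sum_univ_three, K6.dual, K6.sgn]
  norm_num

lemma pt_JF {p : P} (h : iF p ∈ JF) : aeval pt p = 0 := by
  obtain ⟨a, ⟨m, n, h1⟩, b, ⟨m', n', h2⟩, e⟩ := h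
  have e1 : p * (∏ k, zP 0 k) ^ (m + m') =
      n * (∏ k, zP 0 k) ^ m' * HeP + n' * (∏ k, zP 0 k) ^ m * HhP := iF_inj (by
    simp only [map_mul, map_add, map_pow, ← xI_eq]
    rw [← h1, ← h2, e, He, Hh]
    ring)
  simpa only [map_mul, map_add, map_pow, map_prod, pt_x, pt_He, pt_Hh, Finset.prod_const_one,
    one_pow, mul_one, mul_zero, add_zero] using congrArg (aeval pt) e1

lemma g_ne (k : K6) : (gR k : O) ≠ 0 := fun h => by
  have h1 := j_g k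
  rw [h, map_zero, ← map_mul, eq_comm, πQ_eq_zero] at h1
  have h2 := pt_JF (p := HfP * zP 0 k) (by rw [map_mul]; exact h1)
  rw [map_mul, pt_Hf, pt_x, mul_one] at h2
  exact two_ne_zero h2

lemma co_mem {I : Finset K6} {k : K6} (hk : k ∈ I) (α : Fin 3) (l : K6) : co k α l ∈ OI I :=
  ⟨_, zt_mem hk _, rfl⟩

lemma OI_empty_le (I : Finset K6) : OI ∅ ≤ OI I := by
  rintro _ ⟨p, hp, rfl⟩
  exact ⟨p, ⟨PI_mono (Finset.empty_subset I) hp.1, hp.2⟩, rfl⟩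

/-- generators of the functions on an intersection of charts -/
lemma OI_le {I : Finset K6} {k : K6} (hk : k ∈ I) (A : Subalgebra ℂ O) (h0 : ∀ f : R0, f.1 ∈ A)
    (h1 : ∀ l, co k 0 l ∈ A) (h2 : ∀ l, co k 1 l ∈ A) (h3 : ∀ l ∈ I, co l 0 k ∈ A) : OI I ≤ A := by
  have c1 : co k 2 k ∈ A := by
    have := A.smul_mem (h0 (AR k k)) 2⁻¹
    rwa [A_eq, co_self, mul_one, ← two_smul ℂ, smul_smul, inv_mul_cancel₀ two_ne_zero,
      one_smul] at this
  have c2 : ∀ l, co k 2 l ∈ A := fun l => by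
    have := A.sub_mem (h0 (AR k l)) (A.mul_mem c1 (h1 l))
    rwa [A_eq, add_sub_cancel_right] at this
  have z : ∀ p : Pab, (p : F) ∈ JF → mkO p ∈ A := fun p hp => by
    rw [mkO_eq_zero.2 hp]
    exact A.zero_mem
  have key : Algebra.adjoin ℂ (gens k I) ≤ (A.comap mkO).map Pab.val := by
    refine Algebra.adjoin_le ?_
    rintro _ (((⟨⟨⟨α, l⟩, hs⟩, rfl⟩ | rfl) | rfl) | ⟨l, hl, rfl⟩)
    · refine ⟨ztb k (α, l), ?_, rfl⟩
      fin_cases α
      exacts [h1 l, h2 l, c2 l]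
    · exact ⟨⟨_, Hk_mem (Finset.mem_univ k)⟩, z _ (Hk_mem_JF k), rfl⟩
    · exact ⟨⟨_, Ek_mem (Finset.mem_univ k)⟩, z _ (JeF_le (Ek_mem_JeF k)), rfl⟩
    · exact ⟨ztb l (0, k), h3 l hl, rfl⟩
  rintro _ ⟨p, hp, rfl⟩
  obtain ⟨q, hq, e⟩ := key (PIb_eq hk ▸ hp)
  exact Subtype.ext e ▸ hq

theorem rowBL : RowBL := by
  intro K _ _ ι hι
  have : IsDomain O := hι.isDomain ι.toRingHom
  have n0 : ∀ k, ι (gR k) ≠ 0 := fun k => (map_ne_zero_iff ι hι).2 (g_ne k)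
  have dv : ∀ {k : K6} {f g : O}, f * gR k = g → ι g / ι (gR k) = ι f := fun {k f g} h => by
    rw [← h, map_mul, mul_div_cancel_right₀ _ (n0 k)]
  refine ⟨Sum.elim gR fun p => hR p.1 p.2, fun k h => g_ne k (congrArg Subtype.val h), ?_,
    fun k => le_antisymm ?_ (Algebra.adjoin_le ?_), fun k l => dv (g_eq k l), fun f => ?_⟩
  · have m : ∀ k, gR k ∈ Ideal.span (Set.range (Sum.elim gR fun p : K6 × K6 => hR p.1 p.2)) :=
      fun k => Ideal.subset_span ⟨Sum.inl k, rfl⟩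
    generalize Ideal.span (Set.range (Sum.elim gR fun p : K6 × K6 => hR p.1 p.2)) = I at m ⊢
    have mr : ∀ k u, gR k * u ∈ I := fun k u => mul_comm u (gR k) ▸ I.mul_mem_left u (m k)
    have s : ∀ (k : K6) (u : R0), u ∈ I → ∀ j, (Pi.single k u : K6 → R0) j ∈ I := fun k u hu j => by
      rw [Pi.single_apply]
      split_ifs
      exacts [hu, Ideal.zero_mem _]
    have t : ∀ (k : K6) (u : R0), ∑ j, gR j * (Pi.single k u : K6 → R0) j = gR k * u :=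
      fun k u => by simp [Pi.single_apply]
    rintro (k | ⟨l, j⟩)
    · exact ⟨Pi.single k (gR k), s k _ (m k), (sq _).trans (t k _).symm⟩
    · refine ⟨Pi.single l (gR l * AR j j - 2 * gR j * AR l j) + Pi.single j (gR j * AR l l),
        fun k => I.add_mem (s l _ (I.sub_mem (mr _ _)
          (mul_assoc 2 (gR j) _ ▸ I.mul_mem_left 2 (mr _ _))) k) (s j _ (mr _ _) k),
        (h_sq l j).trans ?_⟩
      simp only [Sum.elim_inl, Pi.add_apply, mul_add, Finset.sum_add_distrib, t]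
  · rw [Subalgebra.map_le]
    have a : ∀ l, co k 0 l ∈ (Algebra.adjoin ℂ (Set.range (ι.comp (OI ∅).val) ∪ Set.range
        fun i => ι (Sum.elim gR (fun p : K6 × K6 => hR p.1 p.2) i : R0) / ι (gR k))).comap ι :=
      fun l => Algebra.subset_adjoin (Or.inr ⟨Sum.inl l, dv (g_eq k l)⟩)
    refine OI_le (Finset.mem_singleton_self k) _
      (fun f => Algebra.subset_adjoin (Or.inl ⟨f, rfl⟩)) a
      (fun l => Algebra.subset_adjoin (Or.inr ⟨Sum.inr (k, l), dv (h_eq' k l)⟩)) fun l hl => ?_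
    rw [Finset.mem_singleton.1 hl]
    exact a k
  · have c := co_mem (Finset.mem_singleton_self k)
    rintro _ (⟨f, rfl⟩ | ⟨l | ⟨l, m⟩, rfl⟩)
    · exact ⟨f, OI_empty_le _ f.2, rfl⟩
    · exact ⟨_, c 0 l, (dv (g_eq k l)).symm⟩
    · exact ⟨_, (OI {k}).sub_mem (mul_mem (c 0 l) (c 1 m)) (mul_mem (c 1 l) (c 0 m)),
        (dv (h_eq k l m)).symm⟩
  · let A : Subalgebra ℂ O :=
      { carrier := {f | ∃ a b : R0, (b : O) ≠ 0 ∧ f * b = a}
        mul_mem' := fun ⟨a, b, h1, h2⟩ ⟨a', b', h3, h4⟩ => ⟨a * a', b * b', mul_ne_zero h1 h3, by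
          rw [MulMemClass.coe_mul, MulMemClass.coe_mul, ← h2, ← h4]; ring⟩
        add_mem' := fun ⟨a, b, h1, h2⟩ ⟨a', b', h3, h4⟩ =>
          ⟨a * b' + a' * b, b * b', mul_ne_zero h1 h3, by
            rw [AddMemClass.coe_add, MulMemClass.coe_mul, MulMemClass.coe_mul, MulMemClass.coe_mul,
              ← h2, ← h4]; ring⟩
        algebraMap_mem' := fun c => ⟨algebraMap ℂ R0 c, 1, one_ne_zero, mul_one _⟩ }
    obtain ⟨p, rfl⟩ := mkO_surj f
    exact OI_le (Finset.mem_univ (0, true)) A (fun f => ⟨f, 1, one_ne_zero, mul_one _⟩)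
      (fun l => ⟨_, _, g_ne _, g_eq _ l⟩) (fun l => ⟨_, _, g_ne _, h_eq' _ l⟩)
      (fun l _ => ⟨_, _, g_ne _, g_eq l _⟩) ⟨p, p.2, rfl⟩

end Pool.Agent.MP_86c931_ag.H72
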